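import Pool.Agent.Q280.Fam.Game

set_option autoImplicit false

open Pool.Agent.Q280.Fam
open scoped unitInterval

namespace Pool.Agent.Results.MP_582e6d_pr.MotherFirst

/-- One game between two players; `true` (with probability `p`) means that the first of the two
players wins it. -/
noncomputable def game (p : I) : PMF Bool :=
  PMF.ofFintype (fun w => cond w (ENNReal.ofReal p.1) (ENNReal.ofReal (1 - p.1))) (by
    rw [Fintype.sum_bool, cond_true, cond_false, ← ENNReal.ofReal_add p.2.1 (sub_nonneg.mpr p.2.2)]
    simp)

/-- The winner of the tournament as a random variable (all games are independent).  The three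
numbers are the numbers of game wins which father, mother and son still need, the last argument is
the player who sits out the next game.  Father beats mother with probability `a`, father beats son
with probability `b`, mother beats son with probability `c`.  The loser of a game sits out the next
one, and the player who needs no further win is the winner of the tournament. -/
noncomputable def winner (a b c : I) : ℕ → ℕ → ℕ → Player → PMF Player
  | 0, _, _, _ => PMF.pure .F
  | _ + 1, 0, _, _ => PMF.pure .M
  | _ + 1, _ + 1, 0, _ => PMF.pure .S
  | f + 1, m + 1, s + 1, .S => (game a).bind fun w =>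
      if w then winner a b c f (m + 1) (s + 1) .M else winner a b c (f + 1) m (s + 1) .F
  | f + 1, m + 1, s + 1, .M => (game b).bind fun w =>
      if w then winner a b c f (m + 1) (s + 1) .S else winner a b c (f + 1) (m + 1) s .F
  | f + 1, m + 1, s + 1, .F => (game c).bind fun w =>
      if w then winner a b c (f + 1) m (s + 1) .S else winner a b c (f + 1) (m + 1) s .M
termination_by f m s => f + m + s

/-- The probability that the father wins the tournament for `N` wins if `o` sits out the first
game. -/
noncomputable def fatherWins (a b c : I) (N : ℕ) (o : Player) : ℝ :=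
  (winner a b c N N N o .F).toReal

lemma bind_game (p : I) (u v : PMF Player) :
    (((game p).bind fun w => if w then u else v) .F).toReal =
      p.1 * (u .F).toReal + (1 - p.1) * (v .F).toReal := by
  have h1 : (p : ℝ) ≤ 1 := p.2.2
  have h0 : 0 ≤ (p : ℝ) := p.2.1
  rw [PMF.bind_apply, tsum_fintype, Fintype.sum_bool, ENNReal.toReal_add, ENNReal.toReal_mul,
    ENNReal.toReal_mul]
  · simp only [game, PMF.ofFintype_apply, cond_true, cond_false, if_true]
    rw [ENNReal.toReal_ofReal h0, ENNReal.toReal_ofReal (sub_nonneg.mpr h1)]
    rfl
  · exact ENNReal.mul_ne_top (PMF.apply_ne_top _ _) (PMF.apply_ne_top _ _)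
  · exact ENNReal.mul_ne_top (PMF.apply_ne_top _ _) (PMF.apply_ne_top _ _)

lemma winner_eq (a b c : I) : ∀ m n i j : ℕ, n + i + j < m → ∀ o,
    (winner a b c n i j o .F).toReal = pr a b c n i j o := by
  intro m
  induction m with
  | zero => intro n i j h; omega
  | succ m ih =>
    intro n i j h o
    rcases n with _ | n
    · rw [pr_zero, winner]; simp
    rcases i with _ | i
    · rw [pr_i, winner]; simp
    rcases j with _ | j
    · rw [pr_j, winner]; simp
    rcases o with _ | _ | _
    · rw [pr_F, winner, bind_game, ih _ _ _ (by omega), ih _ _ _ (by omega)]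
    · rw [pr_M, winner, bind_game, ih _ _ _ (by omega), ih _ _ _ (by omega)]
    · rw [pr_S, winner, bind_game, ih _ _ _ (by omega), ih _ _ _ (by omega)]

/-- For every `N ≥ 1` and all `a, b, c` with `b ≤ a` and `c ≤ 1/2` (in particular whenever
`a, b, c < 1/2` and `b ≤ a`), the father has the largest chance to win the tournament if he plays
the mother in the first game (the son sits out). -/
theorem result (N : ℕ) (hN : 1 ≤ N) (a b c : I) (hba : b ≤ a) (hc : (c : ℝ) ≤ 1 / 2) :
    fatherWins a b c N .M ≤ fatherWins a b c N .S ∧
    fatherWins a b c N .F ≤ fatherWins a b c N .S := by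
  obtain ⟨n, rfl⟩ : ∃ n, N = n + 1 := ⟨N - 1, by omega⟩
  unfold fatherWins
  rw [winner_eq a b c _ _ _ _ (Nat.lt_succ_self _), winner_eq a b c _ _ _ _ (Nat.lt_succ_self _),
    winner_eq a b c _ _ _ _ (Nat.lt_succ_self _)]
  exact ⟨mother_son a.2.1 a.2.2 b.2.1 b.2.2 c.2.1 c.2.2 hba hc n,
    mother_first a.2.1 a.2.2 b.2.1 b.2.2 c.2.1 c.2.2 hba hc n⟩

end Pool.Agent.Results.MP_582e6d_pr.MotherFirst
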